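import Pool.Agent.MWGP.Stmts

/-!
# Block MWGP, row D0T: if `θ` has `D 0`, all pairs are free
-/

set_option autoImplicit false

namespace Pool.Agent.MWGP.H7

open Pool.Agent.Helper14_MV Pool.Agent.Helper2_MV Pool.Agent.MVO Pool.Agent.MWL Pool.Agent.MWS
  Pool.Agent.MWH Pool.Agent.MWGP

theorem d0t (hL : MWHP.LrnnStmt) (hI : MWHP.AbiStmt) (hJ : MWHP.AbjStmt) (hG : Gd0Stmt)
    (hH : HhgStmt) : D0tStmt := by
  intro n β θ hM hθ hD k a b i V Ga Gb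
  have hLR : LR n (FC.ofFIC θ) := hL n β θ hM.toBaseH.toBasN hθ
  have hn : 1 ≤ n := hM.toBaseH.toBasN.pos
  have had : ∀ c : ℕ → ℕ, 2 ≤ ad n c i i := by
    intro c
    have : ad n c i i = c i + 2 * n := by simp [ad]
    omega
  -- the first letter
  obtain ⟨a1, V1, ha1, hs1⟩ : ∃ a1, Vd k a1 b i ∧ 2 ≤ a1 i ∧ ∀ s : Stt, Vs a b i s →
      RR θ (asm k (W a b i s)) (asm k (W a1 b i s)) := by
    by_cases h2 : 2 ≤ a i
    · exact ⟨a, V, h2, fun s _ => RR.refl _⟩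
    · have h1 : a i = 1 := by
        have := V.ai
        omega
      have hAb := (hG n (FC.ofFIC θ) hLR k a i Ga V.da V.ik h1).2 hD
      obtain ⟨h3, h4⟩ := hI n β θ hM.toBaseH hθ k a b i V i V.ik hAb (Or.inl rfl)
      exact ⟨ad n a i, h3, had a, h4⟩
  obtain ⟨b1, V2, hb1, hs2⟩ : ∃ b1, Vd k a1 b1 i ∧ 2 ≤ b1 i ∧ ∀ s : Stt, Vs a1 b i s →
      RR θ (asm k (W a1 b i s)) (asm k (W a1 b1 i s)) := by
    by_cases h2 : 2 ≤ b i
    · exact ⟨b, V1, h2, fun s _ => RR.refl _⟩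
    · have h1 : b i = 1 := by
        have := V.bi
        omega
      have hAb := (hG n (FC.ofFIC θ) hLR k b i Gb V.db V.ik h1).2 hD
      obtain ⟨h3, h4⟩ := hJ n β θ hM.toBaseH hθ k a1 b i V1 i V1.ik hAb (Or.inl rfl)
      exact ⟨ad n b i, h3, had b, h4⟩
  have hT := hH n β hM k a1 b1 i V2 ha1 hb1
  intro s s' hs hs'
  have k1 := hs1 s hs
  have k2 := hs2 s (fun _ => Or.inl ha1)
  have k3 : RR θ (asm k (W a1 b1 i s)) (asm k (W a1 b1 i s')) :=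
    hθ _ _ (hT s s' (fun _ => Or.inl ha1) (fun _ => Or.inl ha1))
  have k4 := hs2 s' (fun _ => Or.inl ha1)
  have k5 := hs1 s' hs'
  exact θ.trans k1 (θ.trans k2 (θ.trans k3 (θ.trans (θ.symm k4) (θ.symm k5))))

end Pool.Agent.MWGP.H7
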